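import Mathlib
import Pool.Agent.N11.Knight.Rot

/-!
# Domino tilings of the Aztec diamond with a knight's-move pair removed

`D n` is the Aztec diamond of order `n` without the unit squares centred at `(-1/2, -1/2)` and
`(1/2, 3/2)`.  With `C_j = (binom (2 j) j / 4 ^ j) ^ 2` the number `T(n)` of domino tilings of `D n` is

* `T(n) = 2 ^ (n (n + 1) / 2) * (n / 8) * C_j (1 + C_j)` for `n = 4 j`, `j ≥ 1`;
* `T(n) = 2 ^ (n (n + 1) / 2) * ((n + 1) / 8) * C_j (1 - C_j)` for `n = 4 j + 1`, `j ≥ 1`;
* `T(n) = 2 ^ (n (n + 1) / 2) * (n / 8) * C_j` for `n = 4 j + 2`;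
* `T(n) = 2 ^ (n (n + 1) / 2) * ((n + 1) / 8) * C_{j + 1}` for `n = 4 j + 3`.

Proof.  By Kasteleyn's theorem for regions with holes (`Pool.Agent.Helper848.Kast`, starting file) and a
gauge transformation the number of tilings is the determinant of the Kasteleyn matrix of the Aztec
diamond with one row and one column removed and one sign changed; so it is `2 ^ (n (n + 1) / 2)` times a
polynomial in four entries of the inverse matrix (`Pool.Agent.Helper848.AztecDet`, starting file).  These
entries are partial sums of products of Krawtchouk numbers; near the centre they are expressed through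
partial sums of the arcsine distribution `binom (2 i) i * binom (2 (m - i)) (m - i) / 4 ^ m`, up to
telescoping sums.
-/

set_option autoImplicit false

namespace Pool.Agent.Results.MP_b90a94_co.KnightMove

open Pool.Agent.Helper848 (numTilings)
open Pool.Agent.N11.Knight

/-- **The number of domino tilings of the Aztec diamond with a knight's-move pair removed.** -/
theorem result :
    (∀ j : ℕ, 1 ≤ j → (numTilings (D (4 * j)) : ℚ) =
      2 ^ (2 * j * (4 * j + 1)) * ((j : ℚ) / 2 * Cc j * (1 + Cc j))) ∧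
    (∀ j : ℕ, 1 ≤ j → (numTilings (D (4 * j + 1)) : ℚ) =
      2 ^ ((2 * j + 1) * (4 * j + 1)) * ((2 * (j : ℚ) + 1) / 4 * Cc j * (1 - Cc j))) ∧
    (∀ j : ℕ, (numTilings (D (4 * j + 2)) : ℚ) =
      2 ^ ((2 * j + 1) * (4 * j + 3)) * ((2 * (j : ℚ) + 1) / 4 * Cc j)) ∧
    (∀ j : ℕ, (numTilings (D (4 * j + 3)) : ℚ) =
      2 ^ ((2 * j + 2) * (4 * j + 3)) * (((j : ℚ) + 1) / 2 * Cc (j + 1))) :=
  ⟨T0, T1, T2, T3⟩

end Pool.Agent.Results.MP_b90a94_co.KnightMove
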